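import Mathlib
import Pool.Agent.Helper98.InvTop

/-!
The set of involution proportions of finite groups has countable closure.
-/

namespace Pool.Agent.Results.MP_32cd73_al.NotDense

/-- the proportion of elements of order exactly two in a group (zero for infinite groups) -/
noncomputable def invProp (G : Type) [Group G] : ℝ :=
  (Nat.card {x : G // orderOf x = 2} : ℝ) / (Nat.card G : ℝ)

/-- the set of all proportions `invProp G` for finite groups `G` -/
def InvProps : Set ℝ := {r | ∃ (G : Type) (_ : Group G) (_ : Finite G), r = invProp G}

/-- The closure of the set of involution proportions of finite groups is countable; in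
particular the set is not dense in `[0, 1/2]`. -/
theorem result : (closure InvProps).Countable ∧ ¬ (Set.Icc (0 : ℝ) (1 / 2) ⊆ closure InvProps) := by
  have h : (closure InvProps).Countable := Pool.Agent.Helper98.Inv.closure_countable
  refine ⟨h, fun hsub => ?_⟩
  have h1 : (Set.Icc (0 : ℝ) (1 / 2)).Countable := h.mono hsub
  have h2 : ¬ (Set.Icc (0 : ℝ) (1 / 2)).Countable := by
    rw [← Cardinal.le_aleph0_iff_set_countable, Cardinal.mk_Icc_real (by norm_num), not_le]
    exact Cardinal.aleph0_lt_continuum
  exact h2 h1

end Pool.Agent.Results.MP_32cd73_al.NotDense
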